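import Pool.Agent.helper78.HFN.Spec

/-!
# Row CNQ: the count for two coprime polynomials
-/

set_option autoImplicit false

open Polynomial Module

namespace Pool.Agent.HFN

noncomputable section

theorem CNQ_inj {F : AA} (hF : F ≠ 0) : Function.Injective (LinearMap.mulLeft ℂ F) := by
  intro u v h
  exact mul_left_cancel₀ hF h

theorem CNQ_fr {F : AA} (hF : F ≠ 0) (i j : ℕ) :
    finrank ℂ ((V i j).map (LinearMap.mulLeft ℂ F) : Submodule ℂ AA) = (i + 1) * (j + 1) := by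
  rw [← (Submodule.equivMapOfInjective _ (CNQ_inj hF) (V i j)).finrank_eq, finrank_V]

theorem CNQ_le {F G : AA} {M N : ℕ} (hM : dX F ≤ M) (hN : dY F ≤ N) (hJ : F ∈ Ideal.span {F, G}) :
    (V (M - dX F) (N - dY F)).map (LinearMap.mulLeft ℂ F) ≤
      (V M N ⊓ (Ideal.span {F, G}).restrictScalars ℂ : Submodule ℂ AA) := by
  rintro _ ⟨u, hu, rfl⟩
  rw [LinearMap.mulLeft_apply]
  refine ⟨?_, ?_⟩
  · have h := mul_mem_V (f := F) (i := dX F) (j := dY F) ⟨le_rfl, le_rfl⟩ hu
    rwa [Nat.add_sub_cancel' hM, Nat.add_sub_cancel' hN] at h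
  · exact Ideal.mul_mem_right _ _ hJ

theorem CNQ_num (M N a b a' b' h s t : ℕ) (hM : a + a' ≤ M) (hN : b + b' ≤ N) (h1 : s ≤ h)
    (h2 : s + t = (M - a + 1) * (N - b + 1) + (M - a' + 1) * (N - b' + 1))
    (h3 : t ≤ (M - (a + a') + 1) * (N - (b + b') + 1)) :
    (M + 1) * (N + 1) ≤ h + (a * b' + a' * b) := by
  obtain ⟨m, rfl⟩ := Nat.exists_eq_add_of_le hM
  obtain ⟨n, rfl⟩ := Nat.exists_eq_add_of_le hN
  have e1 : a + a' + m - a = a' + m := by omega
  have e2 : a + a' + m - a' = a + m := by omega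
  have e3 : a + a' + m - (a + a') = m := by omega
  have e4 : b + b' + n - b = b' + n := by omega
  have e5 : b + b' + n - b' = b + n := by omega
  have e6 : b + b' + n - (b + b') = n := by omega
  rw [e1, e2, e4, e5] at h2
  rw [e3, e6] at h3
  nlinarith

theorem CNQ : CNQ_stmt := by
  intro F G hF hG hFG M N hM hN
  have hJ1 : F ∈ Ideal.span ({F, G} : Set AA) := Ideal.subset_span (by simp)
  have hJ2 : G ∈ Ideal.span ({G, F} : Set AA) := Ideal.subset_span (by simp)
  have l1 := CNQ_le (G := G) (M := M) (N := N) (F := F) (by omega) (by omega) hJ1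
  have l2 := CNQ_le (G := F) (M := M) (N := N) (F := G) (by omega) (by omega) hJ2
  rw [Set.pair_comm G F] at l2
  set A1 : Submodule ℂ AA := (V (M - dX F) (N - dY F)).map (LinearMap.mulLeft ℂ F) with hA1
  set A2 : Submodule ℂ AA := (V (M - dX G) (N - dY G)).map (LinearMap.mulLeft ℂ G) with hA2
  haveI f1 : FiniteDimensional ℂ A1 := Submodule.finiteDimensional_of_le l1
  haveI f2 : FiniteDimensional ℂ A2 := Submodule.finiteDimensional_of_le l2
  have h1 : finrank ℂ (A1 ⊔ A2 : Submodule ℂ AA) ≤ hd (Ideal.span {F, G}) M N :=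
    Submodule.finrank_mono (sup_le l1 l2)
  have h2 : finrank ℂ (A1 ⊔ A2 : Submodule ℂ AA) + finrank ℂ (A1 ⊓ A2 : Submodule ℂ AA) =
      (M - dX F + 1) * (N - dY F + 1) + (M - dX G + 1) * (N - dY G + 1) := by
    rw [Submodule.finrank_sup_add_finrank_inf_eq, hA1, hA2, CNQ_fr hF, CNQ_fr hG]
  have h3 : finrank ℂ (A1 ⊓ A2 : Submodule ℂ AA) ≤ (M - (dX F + dX G) + 1) * (N - (dY F + dY G) + 1) := by
    have hFG0 : F * G ≠ 0 := mul_ne_zero hF hG
    rw [← CNQ_fr hFG0]
    haveI : FiniteDimensional ℂ ((V (M - (dX F + dX G)) (N - (dY F + dY G))).map (LinearMap.mulLeft ℂ (F * G)) :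
        Submodule ℂ AA) := Module.Finite.map _ _
    apply Submodule.finrank_mono
    rintro f ⟨⟨u, hu, hfu⟩, ⟨v, hv, hfv⟩⟩
    rw [LinearMap.mulLeft_apply] at hfu hfv
    have e1 : F ∣ G * v := by
      rw [hfv, ← hfu]
      exact Dvd.intro _ rfl
    obtain ⟨w, rfl⟩ := hFG.dvd_of_dvd_mul_left e1
    refine ⟨w, ?_, ?_⟩
    · have h4 := mem_V_of_mul hF hv
      rw [show M - dX G - dX F = M - (dX F + dX G) by omega, show N - dY G - dY F = N - (dY F + dY G) by omega] at h4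
      exact h4
    · rw [LinearMap.mulLeft_apply, ← hfv]
      ring
  exact CNQ_num M N _ _ _ _ _ _ _ hM hN h1 h2 h3

end

end Pool.Agent.HFN
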